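import Pool.Agent.H98.EX.BTargets
import Pool.Agent.H61.SLN.KRA

/-!
MP_65efe8_pr, exact constant, row KRX: the inter-arrival law for `α < 1`.
-/

set_option autoImplicit false

open MeasureTheory ProbabilityTheory Filter Topology
open scoped ENNReal
open Pool.Agent.H95 Pool.Agent.H95.Cop
open Pool.Agent.H98.SLN (TS RG)
open Pool.Agent.H98.EX
open Pool.Agent.H61.SLN (kra_tu kra_TSl pf_KRA)

namespace Pool.Agent.H32.EX

/-- two sided bounds for the weights, up to `η` -/
lemma krx_n0 (α η : ℝ) (hη : 0 < η) (K : PMF ℕ) (cK : ℝ) (hcK : 0 < cK)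
    (hK : Tendsto (fun n : ℕ => (K n).toReal * (n : ℝ) ^ (1 + α)) atTop (𝓝 cK)) :
    ∃ n0 : ℕ, 1 ≤ n0 ∧ ∀ n : ℕ, n0 ≤ n → (1 - η) * cK * (n : ℝ) ^ (-(1 + α)) ≤ kk K n ∧
      kk K n ≤ (1 + η) * cK * (n : ℝ) ^ (-(1 + α)) := by
  have h0 : 0 < η * cK := by positivity
  have h1 : ∀ᶠ n : ℕ in atTop, (1 - η) * cK < (K n).toReal * (n : ℝ) ^ (1 + α) :=
    hK.eventually (lt_mem_nhds (by linarith))
  have h2 : ∀ᶠ n : ℕ in atTop, (K n).toReal * (n : ℝ) ^ (1 + α) < (1 + η) * cK :=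
    hK.eventually (gt_mem_nhds (by linarith))
  obtain ⟨n1, hn1⟩ := eventually_atTop.mp (h1.and h2)
  refine ⟨max n1 1, le_max_right _ _, fun n hn => ?_⟩
  have hn0 : (0 : ℝ) < n := by
    have : 1 ≤ n := (le_max_right _ _).trans hn
    exact_mod_cast this
  have h3 : 0 < (n : ℝ) ^ (1 + α) := Real.rpow_pos_of_pos hn0 _
  have h4 := hn1 n ((le_max_left _ _).trans hn)
  rw [Real.rpow_neg hn0.le, ← div_eq_mul_inv, ← div_eq_mul_inv, div_le_iff₀ h3, le_div_iff₀ h3]
  exact ⟨h4.1.le, h4.2.le⟩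

/-- sharp upper bound for the truncated mean -/
lemma krx_TSu (α : ℝ) (hα : 0 < α) (hα1 : α < 1) (K : PMF ℕ) (C : ℝ) (hC : 0 ≤ C) (n0 : ℕ)
    (hn0 : 1 ≤ n0) (hk : ∀ n : ℕ, n0 ≤ n → kk K n ≤ C * (n : ℝ) ^ (-(1 + α))) (ℓ : ℕ) :
    TS K ℓ ≤ n0 + C / α * ((ℓ : ℝ) ^ (1 - α) / (1 - α)) := by
  have hshift : ∀ L : ℕ, ∑ j ∈ Finset.range L, (if 1 ≤ j then (j : ℝ) ^ (-α) else 0) ≤
      (L : ℝ) ^ (1 - α) / (1 - α) := by
    intro L
    rcases Nat.eq_zero_or_pos L with h | h
    · subst h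
      simp only [Finset.range_zero, Finset.sum_empty]
      have : 0 ≤ ((0 : ℕ) : ℝ) ^ (1 - α) := Real.rpow_nonneg (Nat.cast_nonneg _) _
      exact div_nonneg this (by linarith)
    · obtain ⟨M, rfl⟩ : ∃ M, L = M + 1 := ⟨L - 1, by omega⟩
      rw [Finset.sum_range_succ']
      have h1 : ∀ j ∈ Finset.range M, (if 1 ≤ j + 1 then ((j + 1 : ℕ) : ℝ) ^ (-α) else 0) =
          ((j : ℝ) + 1) ^ (-α) := by
        intro j _
        rw [if_pos (by omega)]
        push_cast
        rfl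
      rw [Finset.sum_congr rfl h1, if_neg (by omega), add_zero]
      refine (sum_rpow_le α hα hα1 M).trans ?_
      apply div_le_div_of_nonneg_right _ (by linarith)
      exact Real.rpow_le_rpow (Nat.cast_nonneg _) (by push_cast; linarith) (by linarith)
  have hterm : ∀ j : ℕ, tailK K (j + 1) ≤ (if j < n0 then 1 else 0) +
      C / α * (if 1 ≤ j then (j : ℝ) ^ (-α) else 0) := by
    intro j
    by_cases hj : j < n0
    · rw [if_pos hj]
      have h1 := tailK_le_one K (j + 1)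
      have h2 : 0 ≤ C / α * (if 1 ≤ j then (j : ℝ) ^ (-α) else 0) := by
        apply mul_nonneg (by positivity)
        split_ifs
        · positivity
        · exact le_rfl
      linarith
    · rw [if_neg hj, if_pos (by omega), zero_add]
      exact kra_tu α hα K C hC n0 hn0 hk j (by omega)
  unfold TS
  calc ∑ j ∈ Finset.range ℓ, tailK K (j + 1) ≤ ∑ j ∈ Finset.range ℓ,
        ((if j < n0 then (1 : ℝ) else 0) + C / α * (if 1 ≤ j then (j : ℝ) ^ (-α) else 0)) :=
        Finset.sum_le_sum (fun j _ => hterm j)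
    _ = ∑ j ∈ Finset.range ℓ, (if j < n0 then (1 : ℝ) else 0) +
        C / α * ∑ j ∈ Finset.range ℓ, (if 1 ≤ j then (j : ℝ) ^ (-α) else 0) := by
        rw [Finset.sum_add_distrib, Finset.mul_sum]
    _ ≤ n0 + C / α * ((ℓ : ℝ) ^ (1 - α) / (1 - α)) := by
        refine add_le_add ?_ (mul_le_mul_of_nonneg_left (hshift ℓ) (by positivity))
        rw [← Finset.sum_filter, Finset.sum_const, nsmul_eq_mul, mul_one]
        have h7 : ((Finset.range ℓ).filter (fun j => j < n0)).card ≤ n0 := by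
          calc ((Finset.range ℓ).filter (fun j => j < n0)).card ≤ (Finset.range n0).card := by
                refine Finset.card_le_card (fun j hj => ?_)
                rw [Finset.mem_filter] at hj
                exact Finset.mem_range.2 hj.2
            _ = n0 := Finset.card_range n0
        exact_mod_cast h7

theorem pf_KRX : T_KRX := by
  intro r hr0 hr8
  set η : ℝ := r / 8 with hη
  have hη0 : 0 < η := by positivity
  have hη1 : η ≤ 1 / 64 := by linarith
  have hlr : 0 < Real.log (1 / r) := Real.log_pos (by rw [lt_div_iff₀ hr0]; linarith)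
  have hm1 : max (1 - 1 / 2 ^ 20 : ℝ) (max (1 / (1 + η)) (1 - η / Real.log (1 / r))) < 1 := by
    refine max_lt (by norm_num) (max_lt ?_ ?_)
    · rw [div_lt_one (by linarith)]; linarith
    · have : 0 < η / Real.log (1 / r) := by positivity
      linarith
  refine ⟨_, hm1, ?_⟩
  intro α hα hα1 K hK0 cK hcK hK
  have hA := (le_max_left _ _).trans_lt hα
  have hB := ((le_max_left _ _).trans (le_max_right _ _)).trans_lt hα
  have hC := ((le_max_right _ _).trans (le_max_right _ _)).trans_lt hα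
  have hα0 : 0 < α := by
    have : (1 : ℝ) / 2 ^ 20 < 1 := by norm_num
    linarith
  have hαi : 1 / α ≤ 1 + η := by
    rw [div_lt_iff₀ (by linarith)] at hB
    rw [div_le_iff₀ hα0]
    nlinarith
  have hαi1 : 1 ≤ 1 / α := by
    rw [le_div_iff₀ hα0]
    linarith
  have hδ0 : 0 < 1 - α := by linarith
  have hrp : 1 - η ≤ r ^ (1 - α) := by
    have h1 : r ^ (1 - α) = Real.exp (Real.log r * (1 - α)) := by
      rw [Real.rpow_def_of_pos hr0]
    have h2 : Real.log (1 / r) = - Real.log r := by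
      rw [one_div, Real.log_inv]
    have h3 : (1 - α) * Real.log (1 / r) ≤ η := by
      have h4 : 1 - α < η / Real.log (1 / r) := by linarith
      rw [lt_div_iff₀ hlr] at h4
      exact h4.le
    rw [h1]
    have h5 := Real.add_one_le_exp (Real.log r * (1 - α))
    rw [h2] at h3
    linarith
  obtain ⟨n0, hn0, hn⟩ := krx_n0 α η hη0 K cK hcK hK
  have hpow : Tendsto (fun n : ℕ => (n : ℝ) ^ (1 - α)) atTop atTop :=
    (tendsto_rpow_atTop hδ0).comp tendsto_natCast_atTop_atTop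
  have hlin : Tendsto (fun n : ℕ => Real.sqrt (1 - α) * (n : ℝ)) atTop atTop :=
    tendsto_natCast_atTop_atTop.const_mul_atTop (Real.sqrt_pos.2 hδ0)
  have hlin2 : Tendsto (fun n : ℕ => r * (n : ℝ)) atTop atTop :=
    tendsto_natCast_atTop_atTop.const_mul_atTop hr0
  filter_upwards [pf_KRA α hA.le hα1 K hK0 cK hcK hK, eventually_ge_atTop (n0 + 1),
    hlin.eventually (eventually_ge_atTop ((n0 : ℝ) + 1)),
    hlin2.eventually (eventually_ge_atTop ((n0 : ℝ) + 1)),
    hpow.eventually (eventually_ge_atTop (((n0 : ℝ) + 1) ^ (1 - α) / η)),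
    hpow.eventually (eventually_ge_atTop ((n0 : ℝ) / (η * cK)))] with k eRG e1 e2 e3 e4 e5
  rw [div_le_iff₀ hη0] at e4
  rw [div_le_iff₀ (by positivity)] at e5
  set P : ℝ := (k : ℝ) ^ (1 - α) with hP
  have hk0 : (0 : ℝ) < k := by
    have : 1 ≤ k := by omega
    exact_mod_cast this
  have hP0 : 0 < P := Real.rpow_pos_of_pos hk0 _
  have hq2 : Real.sqrt (1 - α) * k < (⌊Real.sqrt (1 - α) * k⌋₊ : ℝ) + 1 := Nat.lt_floor_add_one _
  have hqn : n0 ≤ ⌊Real.sqrt (1 - α) * k⌋₊ := by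
    have : (n0 : ℝ) < (⌊Real.sqrt (1 - α) * k⌋₊ : ℝ) + 1 := by linarith
    have h2 : n0 < ⌊Real.sqrt (1 - α) * k⌋₊ + 1 := by exact_mod_cast this
    omega
  set D : ℝ := cK / α / (1 - α) with hD
  have hD0 : 0 < D := by positivity
  have hD1 : cK ≤ D := by
    rw [hD, le_div_iff₀ hδ0, le_div_iff₀ hα0]
    nlinarith [mul_pos hcK hα0, mul_pos hcK hδ0]
  have hDe : (1 - α) * D = cK * (1 / α) := by
    rw [hD]; field_simp
  -- upper bound
  have hU : TS K k ≤ (1 + 2 * η) * (D * P) := by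
    have h1 := krx_TSu α hα0 hα1 K ((1 + η) * cK) (by positivity) n0 hn0
      (fun n h => (hn n h).2) k
    have h2 : (1 + η) * cK / α * ((k : ℝ) ^ (1 - α) / (1 - α)) = (1 + η) * (D * P) := by
      rw [hD, hP]; field_simp
    rw [h2] at h1
    have h3 : (n0 : ℝ) ≤ η * (D * P) := by
      calc (n0 : ℝ) ≤ P * (η * cK) := e5
        _ = η * (cK * P) := by ring
        _ ≤ η * (D * P) := by gcongr
    linarith
  -- lower bound
  have hLow : ∀ L : ℕ, n0 ≤ L → (1 - η) * (D * ((L : ℝ) ^ (1 - α) - η * P)) ≤ TS K L := by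
    intro L hL
    have h1 := kra_TSl α hα0 hα1 K ((1 - η) * cK) (by
      have : 0 ≤ 1 - η := by linarith
      positivity) n0 (fun n h => (hn n h).1) L hL
    refine le_trans ?_ h1
    have h2 : (1 - η) * cK / α / (1 - α) * ((L : ℝ) ^ (1 - α) - ((n0 : ℝ) + 1) ^ (1 - α)) =
        (1 - η) * (D * ((L : ℝ) ^ (1 - α) - ((n0 : ℝ) + 1) ^ (1 - α))) := by
      rw [hD]; field_simp
    rw [h2]
    have h3 : 0 ≤ 1 - η := by linarith
    gcongr
    linarith
  refine ⟨eRG, hr0, hr8, ?_, ?_, ?_, ?_, ?_⟩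
  · intro n hqn'
    have h1 := (hn n (hqn.trans hqn')).2
    have h2 : 0 ≤ (n : ℝ) ^ (-(1 + α)) := by positivity
    refine h1.trans ?_
    apply mul_le_mul_of_nonneg_right _ h2
    apply mul_le_mul_of_nonneg_right _ hcK.le
    linarith
  · intro n hqn'
    have h1 := (hn n (hqn.trans hqn')).1
    have h2 : 0 ≤ (n : ℝ) ^ (-(1 + α)) := by positivity
    refine le_trans ?_ h1
    apply mul_le_mul_of_nonneg_right _ h2
    apply mul_le_mul_of_nonneg_right _ hcK.le
    linarith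
  · -- sv
    intro L hL1 _
    have hLn : n0 ≤ L := by
      have : (n0 : ℝ) ≤ L := by linarith
      exact_mod_cast this
    have h1 := hLow L hLn
    have h2 : (1 - η) * P ≤ (L : ℝ) ^ (1 - α) := by
      calc (1 - η) * P ≤ r ^ (1 - α) * P := mul_le_mul_of_nonneg_right hrp hP0.le
        _ = (r * k) ^ (1 - α) := by rw [hP, Real.mul_rpow hr0.le hk0.le]
        _ ≤ (L : ℝ) ^ (1 - α) := Real.rpow_le_rpow (by positivity) hL1 (by linarith)
    have h3 : (1 - η) * (D * ((1 - η) * P - η * P)) ≤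
        (1 - η) * (D * ((L : ℝ) ^ (1 - α) - η * P)) := by
      have h3 : 0 ≤ 1 - η := by linarith
      gcongr
    have h4 : (1 - r) * TS K k ≤ (1 - r) * ((1 + 2 * η) * (D * P)) :=
      mul_le_mul_of_nonneg_left hU (by linarith)
    refine h4.trans (le_trans ?_ (h3.trans h1))
    have h5 : 0 < D * P := by positivity
    have h6 : (1 - η) * (D * ((1 - η) * P - η * P)) = ((1 - η) * (1 - 2 * η)) * (D * P) := by
      ring
    rw [h6, ← mul_assoc]
    apply mul_le_mul_of_nonneg_right _ h5.le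
    have h7 : r = 8 * η := by rw [hη]; ring
    rw [h7]
    nlinarith
  · -- v1
    have h1 := hLow k (by omega)
    have h2 : (1 - η) * (D * (P - η * P)) = (1 - η) ^ 2 * (D * P) := by ring
    rw [← hP, h2] at h1
    have h3 : (1 - α) * ((1 - η) ^ 2 * (D * P)) ≤ (1 - α) * TS K k :=
      mul_le_mul_of_nonneg_left h1 hδ0.le
    have h4 : (1 - α) * ((1 - η) ^ 2 * (D * P)) = (1 - η) ^ 2 * (1 / α) * (cK * P) := by
      calc (1 - α) * ((1 - η) ^ 2 * (D * P)) = (1 - η) ^ 2 * ((1 - α) * D) * P := by ring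
        _ = (1 - η) ^ 2 * (1 / α) * (cK * P) := by rw [hDe]; ring
    rw [h4] at h3
    have h5 : 0 < cK * P := by positivity
    have h6 : (1 - η) ^ 2 * (cK * P) ≤ (1 - η) ^ 2 * (1 / α) * (cK * P) := by
      apply mul_le_mul_of_nonneg_right _ h5.le
      nlinarith [sq_nonneg (1 - η)]
    have h7 : (1 + r) * ((1 - η) ^ 2 * (cK * P)) ≤ (1 + r) * ((1 - α) * TS K k) :=
      mul_le_mul_of_nonneg_left (h6.trans h3) (by linarith)
    refine le_trans ?_ h7
    have h8 : (1 : ℝ) ≤ (1 + r) * (1 - η) ^ 2 := by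
      have h7 : r = 8 * η := by rw [hη]; ring
      rw [h7]
      nlinarith [sq_nonneg η, mul_pos hη0 hη0, mul_pos (mul_pos hη0 hη0) hη0]
    calc cK * P = 1 * (cK * P) := by ring
      _ ≤ ((1 + r) * (1 - η) ^ 2) * (cK * P) := mul_le_mul_of_nonneg_right h8 h5.le
      _ = (1 + r) * ((1 - η) ^ 2 * (cK * P)) := by ring
  · -- v2
    have h3 : (1 - α) * TS K k ≤ (1 - α) * ((1 + 2 * η) * (D * P)) :=
      mul_le_mul_of_nonneg_left hU hδ0.le
    have h4 : (1 - α) * ((1 + 2 * η) * (D * P)) = (1 + 2 * η) * (1 / α) * (cK * P) := by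
      calc (1 - α) * ((1 + 2 * η) * (D * P)) = (1 + 2 * η) * ((1 - α) * D) * P := by ring
        _ = (1 + 2 * η) * (1 / α) * (cK * P) := by rw [hDe]; ring
    rw [h4] at h3
    have h5 : 0 < cK * P := by positivity
    have h6 : (1 + 2 * η) * (1 / α) * (cK * P) ≤ (1 + 2 * η) * (1 + η) * (cK * P) := by
      apply mul_le_mul_of_nonneg_right _ h5.le
      apply mul_le_mul_of_nonneg_left hαi (by linarith)
    have h7 : (1 - r) * ((1 - α) * TS K k) ≤ (1 - r) * ((1 + 2 * η) * (1 + η) * (cK * P)) :=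
      mul_le_mul_of_nonneg_left (h3.trans h6) (by linarith)
    refine h7.trans ?_
    have h8 : (1 - r) * ((1 + 2 * η) * (1 + η)) ≤ 1 := by
      have h7 : r = 8 * η := by rw [hη]; ring
      rw [h7]
      nlinarith [sq_nonneg η, mul_pos hη0 hη0, mul_pos (mul_pos hη0 hη0) hη0]
    calc (1 - r) * ((1 + 2 * η) * (1 + η) * (cK * P))
        = ((1 - r) * ((1 + 2 * η) * (1 + η))) * (cK * P) := by ring
      _ ≤ 1 * (cK * P) := mul_le_mul_of_nonneg_right h8 h5.le
      _ = cK * P := by ring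

end Pool.Agent.H32.EX
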