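import Pool.Agent.H98.EX.LTargets
import Pool.Agent.H68.CEL.NUS

/-!
MP_65efe8_pr, exact constant, row NUSX: the levels without errors.
-/

set_option autoImplicit false

open MeasureTheory ProbabilityTheory Filter Topology
open Pool.Agent.H95 Pool.Agent.H95.Cop Pool.Agent.H98.CE Pool.Agent.H98.EX
open Pool.Agent.H68.CEL (cv_eq_pw pw_zero_of_lt)

namespace Pool.Agent.H32.EX

theorem pf_NUSX : T_NUSX := by
  intro c0 η J ms l
  induction l with
  | zero =>
    intro U hU hJ hms
    unfold tlx Fl t0x
    rw [if_pos (by omega), if_neg (by omega)]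
    have he : ((U + 0 + 2 : ℕ) : ℝ) + 1 = (U : ℝ) + 3 := by
      push_cast
      ring
    rw [he, one_mul]
  | succ l ih =>
    intro U hU hJ hms
    have hF0 : Fl η (fun U => Real.exp (-(c0 * ((U : ℝ) + 3)))) l 0 = 0 := by
      cases l with
      | zero => unfold Fl; exact if_pos rfl
      | succ l => unfold Fl; exact if_pos rfl
    have h1 := cv_eq_pw (t := tlx c0 η 1 J ms l)
      (F := Fl η (fun U => Real.exp (-(c0 * ((U : ℝ) + 3)))) l) (l := l) (R := U + 1) hF0
      (fun u hu hu' => ih u hu (by omega) (by omega))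
    have h2 : tlx c0 η 1 J ms (l + 1) (U + (l + 1) + 2) = ∑ m ∈ Finset.range ms, η ^ m *
        pw (Fl η (fun U => Real.exp (-(c0 * ((U : ℝ) + 3)))) l) (m + 1) (U + 1) := by
      change nx (tlx c0 η 1 J ms l) (l + 3) ms (1 * η) 1 (U + (l + 1) + 2) = _
      unfold nx
      rw [one_mul, one_mul]
      refine Finset.sum_congr rfl fun m _ => ?_
      rw [← h1 (m + 1) (U + 1) le_rfl]
      congr 2
      rw [Nat.add_sub_assoc (by norm_num)]
      ring
    rw [h2]
    have h3 : Fl η (fun U => Real.exp (-(c0 * ((U : ℝ) + 3)))) (l + 1) U =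
        ∑ m ∈ Finset.range (U + 1), η ^ m *
        pw (Fl η (fun U => Real.exp (-(c0 * ((U : ℝ) + 3)))) l) (m + 1) (U + 1) := by
      change (if U = 0 then 0 else _) = _
      rw [if_neg (by omega)]
    rw [h3]
    symm
    apply Finset.sum_subset
    · intro m hm
      rw [Finset.mem_range] at hm ⊢
      omega
    · intro m _ hm
      rw [Finset.mem_range] at hm
      rw [pw_zero_of_lt hF0 (m + 1) (U + 1) (by omega), mul_zero]

end Pool.Agent.H32.EX
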